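import Pool.Agent.R948.ZPf

/-!
# Hypersurfaces through a subvariety in general position to countably many subvarieties
-/

set_option autoImplicit false
set_option linter.unusedSectionVars false
set_option linter.style.haveILetI false

namespace Pool.Agent.R370.JU

open MvPolynomial Pool.Agent.R948 Pool.Agent.R948.ZP

attribute [local instance] MvPolynomial.gradedAlgebra

section

variable {K : Type} [Field K] {ι : Type} [Fintype ι]

/-- homogeneous polynomials of the same degree which cut out a subvariety -/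
theorem exists_gens [Infinite K] {X V : Set (ι → K)} (hX : IsCone X) (h0 : (0 : ι → K) ∉ X)
    (hV : Subvariety X V) : ∃ (N : ℕ) (G : Finset (MvPolynomial ι K)),
      (∀ g ∈ G, g.IsHomogeneous N ∧ g ∈ van V) ∧
      ∀ B, Subvariety X B → ¬ B ⊆ V → ∃ g ∈ G, g ∉ van B := by
  classical
  obtain ⟨s, hs⟩ := (IsNoetherian.noetherian (van V) : (van V).FG)
  let N := s.sup totalDegree
  let G : Finset (MvPolynomial ι K) :=
    (s ×ˢ (Finset.range (N + 1) ×ˢ (Finset.univ : Finset ι))).image
      fun p => (MvPolynomial.X p.2.2 : MvPolynomial ι K) ^ (N - p.2.1) *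
        homogeneousComponent p.2.1 p.1
  refine ⟨N, G, ?_, ?_⟩
  · intro g hg
    obtain ⟨⟨f, n, i⟩, hp, rfl⟩ := Finset.mem_image.1 hg
    rw [Finset.mem_product, Finset.mem_product, Finset.mem_range] at hp
    obtain ⟨hf, hn, -⟩ := hp
    have hn' : n < N + 1 := hn
    constructor
    · have h1 := (isHomogeneous_X_pow (R := K) i (N - n)).mul
        (homogeneousComponent_isHomogeneous n f)
      have h2 : N - n + n = N := by omega
      rw [h2] at h1
      exact h1
    · refine Ideal.mul_mem_left _ _ (van_comp hV.closed.1 ?_ n)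
      rw [← hs]
      exact Ideal.subset_span hf
  · intro B hB hBV
    haveI := hB.prime hX
    have h1 : ¬ van V ≤ van B := fun h => hBV (Closed.le_of_van hB.subset hV.closed h)
    have h2 : ∃ f ∈ s, f ∉ van B := by
      by_contra hcon
      push Not at hcon
      apply h1
      rw [← hs]
      exact Ideal.span_le.2 fun f hf => hcon f hf
    obtain ⟨f, hf, hfB⟩ := h2
    have h3 : ∃ n ∈ Finset.range (f.totalDegree + 1), homogeneousComponent n f ∉ van B := by
      by_contra hcon
      push Not at hcon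
      apply hfB
      rw [← sum_homogeneousComponent f]
      exact Ideal.sum_mem _ hcon
    obtain ⟨n, hn, hnB⟩ := h3
    have h4 : ∃ i : ι, (MvPolynomial.X i : MvPolynomial ι K) ∉ van B := by
      by_contra hcon
      push Not at hcon
      obtain ⟨x, hx⟩ := hB.nonempty
      apply h0
      have h5 : x = 0 := by
        funext i
        have := hcon i x hx
        rwa [eval_X] at this
      rw [← h5]
      exact hB.subset hx
    obtain ⟨i, hi⟩ := h4
    refine ⟨_, Finset.mem_image.2 ⟨(f, n, i), ?_, rfl⟩, fun h => ?_⟩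
    · rw [Finset.mem_product, Finset.mem_product, Finset.mem_range]
      refine ⟨hf, ?_, Finset.mem_univ _⟩
      have h5 : f.totalDegree ≤ N := Finset.le_sup hf
      have h6 := Finset.mem_range.1 hn
      change n < N + 1
      omega
    · rcases Ideal.IsPrime.mem_or_mem inferInstance h with h5 | h5
      · exact hi (Ideal.IsPrime.mem_of_pow_mem inferInstance _ h5)
      · exact hnB h5

/-- a hypersurface through `V` which contains none of countably many subvarieties -/
theorem exists_form [Uncountable K] {X V : Set (ι → K)} (hX : IsCone X) (h0 : (0 : ι → K) ∉ X)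
    (hV : Subvariety X V) (ℬ : Set (Set (ι → K))) (hℬ : ℬ.Countable)
    (h : ∀ B ∈ ℬ, Subvariety X B ∧ ¬ B ⊆ V) :
    ∃ (N : ℕ) (f : MvPolynomial ι K), f.IsHomogeneous N ∧ f ∈ van V ∧ ∀ B ∈ ℬ, f ∉ van B := by
  classical
  haveI : Infinite K := inferInstance
  obtain ⟨N, G, hG, hG2⟩ := exists_gens hX h0 hV
  let e := G.equivFin
  let g : Fin G.card → MvPolynomial ι K := fun j => (e.symm j : MvPolynomial ι K)
  let F : K → MvPolynomial ι K := fun t => ∑ j : Fin G.card, C (t ^ (j : ℕ)) * g j
  have hbad : ∀ B ∈ ℬ, {t | F t ∈ van B}.Finite := by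
    intro B hB
    obtain ⟨hB1, hB2⟩ := h B hB
    obtain ⟨g₀, hg₀, hg₀B⟩ := hG2 B hB1 hB2
    have h1 : ∃ x ∈ B, eval x g₀ ≠ 0 := by
      by_contra hcon
      push Not at hcon
      exact hg₀B hcon
    obtain ⟨x, hx, hx2⟩ := h1
    let q : Polynomial K := ∑ j : Fin G.card, Polynomial.C (eval x (g j)) * Polynomial.X ^ (j : ℕ)
    have hq : q ≠ 0 := by
      intro hq0
      apply hx2
      have h2 : q.coeff (e ⟨g₀, hg₀⟩ : ℕ) = eval x g₀ := by
        rw [Polynomial.finsetSum_coeff, Finset.sum_eq_single (e ⟨g₀, hg₀⟩)]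
        · rw [Polynomial.coeff_C_mul, Polynomial.coeff_X_pow_self, mul_one]
          simp [g]
        · intro j _ hj
          rw [Polynomial.coeff_C_mul, Polynomial.coeff_X_pow, if_neg, mul_zero]
          exact fun h3 => hj (Fin.ext h3.symm)
        · exact fun h3 => absurd (Finset.mem_univ _) h3
      rw [← h2, hq0, Polynomial.coeff_zero]
    refine (Finset.finite_toSet q.roots.toFinset).subset fun t ht => ?_
    rw [Finset.mem_coe, Multiset.mem_toFinset, Polynomial.mem_roots hq, Polynomial.IsRoot.def]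
    have h3 := ht x hx
    rw [← h3]
    simp only [q, F, map_sum, map_mul, eval_C, Polynomial.eval_finsetSum, Polynomial.eval_mul,
      Polynomial.eval_C, Polynomial.eval_pow, Polynomial.eval_X]
    exact Finset.sum_congr rfl fun j _ => mul_comm _ _
  have hc : (⋃ B ∈ ℬ, {t | F t ∈ van B}).Countable :=
    hℬ.biUnion fun B hB => (hbad B hB).countable
  have hne : ∃ t, t ∉ ⋃ B ∈ ℬ, {t | F t ∈ van B} := by
    by_contra hcon
    push Not at hcon
    have h1 : (⋃ B ∈ ℬ, {t | F t ∈ van B}) = Set.univ := Set.eq_univ_of_forall hcon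
    rw [h1] at hc
    exact Set.not_countable_univ hc
  obtain ⟨t, ht⟩ := hne
  refine ⟨N, F t, ?_, ?_, ?_⟩
  · refine IsHomogeneous.sum _ _ _ fun j _ => ?_
    have h1 := (isHomogeneous_C ι (t ^ (j : ℕ))).mul (hG (g j) (e.symm j).2).1
    rwa [zero_add] at h1
  · exact Ideal.sum_mem _ fun j _ => Ideal.mul_mem_left _ _ (hG (g j) (e.symm j).2).2
  · intro B hB hcon
    exact ht (Set.mem_biUnion hB hcon)

theorem zeros_hom_cone {f : MvPolynomial ι K} {N : ℕ} (hf : f.IsHomogeneous N) :
    IsCone (zeros {f}) := by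
  intro x hx c _ f' hf'
  rw [Set.mem_singleton_iff] at hf'
  rw [hf', eval_smul_of_hom hf, hx f rfl, mul_zero]

theorem closed_hyp {X : Set (ι → K)} (hX : IsCone X) {f : MvPolynomial ι K} {N : ℕ}
    (hf : f.IsHomogeneous N) : Closed X (X ∩ zeros {f}) :=
  ⟨fun x hx c hc => ⟨hX x hx.1 c hc, zeros_hom_cone hf x hx.2 c hc⟩, {f}, rfl⟩

/-- a hypersurface section drops the dimension of components by at most one -/
theorem vd_cut [IsAlgClosed K] {X A C : Set (ι → K)} (hX : QuasiProjective X)
    (hA : Subvariety X A) {f : MvPolynomial ι K} {N : ℕ} (hf : f.IsHomogeneous N)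
    (hC : IsComponent X C (A ∩ (X ∩ zeros {f}))) : vd A ≤ vd C + 1 := by
  classical
  haveI : Infinite K := IsAlgClosed.instInfinite
  haveI := hA.prime hX.cone
  haveI := hC.1.prime hX.cone
  obtain ⟨F, G, hFG⟩ := hX.locallyClosed
  have hCA : C ⊆ A := hC.2.1.trans Set.inter_subset_left
  have hCf : f ∈ van C := fun x hx => (hC.2.1 hx).2.2 f rfl
  have hmin : van C ∈ (van A ⊔ Ideal.span {f}).minimalPrimes := by
    refine ⟨⟨inferInstance, sup_le (van_anti hCA) ?_⟩, ?_⟩
    · rw [Ideal.span_le, Set.singleton_subset_iff]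
      exact hCf
    · rintro Q ⟨hQp, hQ1⟩ hQ2
      let Qh : Ideal (MvPolynomial ι K) := (Q.homogeneousCore (homogeneousSubmodule ι K)).toIdeal
      have hQhp : Qh.IsPrime := hQp.homogeneousCore
      have hQh1 : Qh ≤ Q := Ideal.toIdeal_homogeneousCore_le _ _
      have hQh2 : van A ≤ Qh := by
        have h1 := van_isHomogeneous hA.closed.1
        have h2 : van A ≤ Q := le_sup_left.trans hQ1
        have h3 := Ideal.homogeneousCore_mono (homogeneousSubmodule ι K) h2
        have h4 := h1.toIdeal_homogeneousCore_eq_self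
        rw [← h4]
        exact h3
      have hQh3 : f ∈ Qh := by
        have h1 : f ∈ Q := hQ1 (Ideal.mem_sup_right (Ideal.mem_span_singleton_self f))
        exact Ideal.mem_homogeneousCore_of_homogeneous_of_mem ⟨N, hf⟩ h1
      have hQhh : Qh.IsHomogeneous (homogeneousSubmodule ι K) :=
        (Q.homogeneousCore (homogeneousSubmodule ι K)).isHomogeneous
      let D : Set (ι → K) := X ∩ zeros (Qh : Set (MvPolynomial ι K))
      have hDc : Closed X D := by
        refine ⟨fun x hx c hc => ⟨hX.cone x hx.1 c hc, ?_⟩, _, rfl⟩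
        refine cone_of_hom _ ?_ x hx.2 c hc
        intro g hg n
        have h1 := hQhh n hg
        change (((DirectSum.Decomposition.decompose' g) n : homogeneousSubmodule ι K n) :
          MvPolynomial ι K) ∈ Qh at h1
        rw [MvPolynomial.decomposition.decompose'_apply] at h1
        exact h1
      have hvanD : van D = Qh := by
        apply le_antisymm
        · obtain ⟨x, hx⟩ := hC.1.nonempty
          have hxX := hC.1.subset hx
          rw [hFG] at hxX
          have hxG := hxX.2
          simp only [zeros, Set.mem_ofPred_eq, not_forall] at hxG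
          obtain ⟨g, hg, hgx⟩ := hxG
          intro u hu
          have h1 : u * g ∈ Qh := by
            rw [mem_prime_iff]
            intro y hy
            rw [map_mul]
            by_cases hyX : y ∈ X
            · rw [hu y ⟨hyX, hy⟩, zero_mul]
            · have h3 : y ∈ zeros F := by
                intro f' hf'
                refine hy f' (hQh2 fun z hz => ?_)
                have h5 := hA.subset hz
                rw [hFG] at h5
                exact h5.1 f' hf'
              have h6 : y ∈ zeros G := by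
                by_contra hcon
                exact hyX (by rw [hFG]; exact ⟨h3, hcon⟩)
              rw [h6 g hg, mul_zero]
          refine (hQhp.mem_or_mem h1).resolve_right fun h2 => hgx ?_
          exact hQ2 (hQh1 h2) x hx
        · exact fun u hu x hx => hx.2 u hu
      have hD : Subvariety X D := Subvariety.of_prime hDc (by rw [hvanD]; exact hQhp)
      have hCD : C ⊆ D := fun x hx => ⟨hC.1.subset hx, fun u hu => hQ2 (hQh1 hu) x hx⟩
      have hDA : D ⊆ A := Closed.le_of_van hD.subset hA.closed (by rw [hvanD]; exact hQh2)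
      have hDf : D ⊆ A ∩ (X ∩ zeros {f}) := fun x hx => ⟨hDA hx, hx.1, fun f' hf' => by
        rw [Set.mem_singleton_iff.1 hf']
        exact hx.2 f hQh3⟩
      have hDC := hC.2.2 D hD hCD hDf
      rw [← hDC, hvanD]
      exact hQh1
  have h1 := tdP_drop f hmin
  rw [vd_eq, vd_eq]
  exact h1

/-- complete intersections through `V` in general position to countably many subvarieties -/
theorem exists_chain [IsAlgClosed K] [Uncountable K] {X V T : Set (ι → K)}
    (hX : QuasiProjective X) (𝒯 : Set (Set (ι → K))) (hc : 𝒯.Countable)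
    (hs : ∀ S ∈ 𝒯, Subvariety X S) (hV : Subvariety X V) (hT : Subvariety X T) (hVT : V ⊆ T)
    (i : ℕ) (hi : vd V + i ≤ vd T) :
    ∃ U, Subvariety X U ∧ V ⊆ U ∧ U ⊆ T ∧ vd U + i = vd T ∧
      ∀ S ∈ 𝒯, ∀ B, Subvariety X B → B ⊆ S → B ⊆ U → ¬ B ⊆ V → vd B + i ≤ vd S := by
  classical
  haveI : Infinite K := IsAlgClosed.instInfinite
  have hXc := hX.cone
  induction i with
  | zero =>
    refine ⟨T, hT, hVT, le_rfl, rfl, fun S hS B hB hBS _ _ => ?_⟩
    exact vd_mono hXc hB (hs S hS) hBS
  | succ i ih =>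
    obtain ⟨U, hU, hVU, hUT, hUd, hUB⟩ := ih (by omega)
    have hUV : ¬ U ⊆ V := by
      intro h
      have h1 := vd_mono hXc hU hV h
      omega
    let ℬ : Set (Set (ι → K)) :=
      insert U ((⋃ S ∈ 𝒯, {B | IsComponent X B (S ∩ U)}) ∩ {B | ¬ B ⊆ V})
    have hℬc : ℬ.Countable := by
      refine Set.Countable.insert _ (Set.Countable.mono Set.inter_subset_left
        (hc.biUnion fun S hS => ?_))
      exact (components_finite ((hs S hS).closed.inter hU.closed)).countable
    have hℬ : ∀ B ∈ ℬ, Subvariety X B ∧ ¬ B ⊆ V := by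
      intro B hB
      rcases Set.mem_insert_iff.1 hB with rfl | ⟨hB1, hB2⟩
      · exact ⟨hU, hUV⟩
      · obtain ⟨S, -, hB3⟩ := Set.mem_iUnion₂.1 hB1
        exact ⟨hB3.1, hB2⟩
    obtain ⟨N, f, hf, hfV, hfB⟩ := exists_form hXc hX.zero hV ℬ hℬc hℬ
    have hVf : V ⊆ U ∩ (X ∩ zeros {f}) := fun x hx => ⟨hVU hx, hV.subset hx, fun f' hf' => by
      rw [Set.mem_singleton_iff.1 hf']
      exact hfV x hx⟩
    obtain ⟨W, hW, hVW⟩ := exists_component hXc hV hVf
    have hWU : W ⊆ U := hW.2.1.trans Set.inter_subset_left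
    have hfW : f ∈ van W := fun x hx => (hW.2.1 hx).2.2 f rfl
    have h1 := vd_cut hX hU hf hW
    have h2 : vd W < vd U := by
      refine vd_strict hXc hW.1 hU (Set.ssubset_iff_subset_ne.2 ⟨hWU, ?_⟩)
      rintro rfl
      exact hfB W (Set.mem_insert _ _) hfW
    refine ⟨W, hW.1, hVW, hWU.trans hUT, by omega, fun S hS B hB hBS hBW hBV => ?_⟩
    obtain ⟨B', hB', hBB'⟩ := exists_component hXc hB (Set.subset_inter hBS (hBW.trans hWU))
    have hB'V : ¬ B' ⊆ V := fun h => hBV (hBB'.trans h)
    have h3 := hUB S hS B' hB'.1 (hB'.2.1.trans Set.inter_subset_left)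
      (hB'.2.1.trans Set.inter_subset_right) hB'V
    have h4 : f ∉ van B' := by
      refine hfB B' (Set.mem_insert_of_mem _ ⟨?_, hB'V⟩)
      exact Set.mem_iUnion₂.2 ⟨S, hS, hB'⟩
    have h5 : vd B < vd B' := by
      refine vd_strict hXc hB hB'.1 (Set.ssubset_iff_subset_ne.2 ⟨hBB', ?_⟩)
      rintro rfl
      exact h4 fun x hx => hfW x (hBW hx)
    omega

end

end Pool.Agent.R370.JU
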