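import Pool.Agent.R370.JU.A

/-!
# The Zilber–Pink conjecture reduces to just unlikely intersections
-/

set_option autoImplicit false
set_option linter.unusedSectionVars false
set_option linter.style.haveILetI false

namespace Pool.Agent.R370.JU

open MvPolynomial Pool.Agent.R948 Pool.Agent.R948.ZP

section Definitions

variable {K : Type} [Field K] {ι : Type} [Fintype ι]

/-- The question for just unlikely isolated points: `V` is a subvariety of the special subvariety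
`T` with `dim V = dim T - s - 1`, the `Z_n` are special subvarieties of `T` of dimension `s` (so
`dim V + dim Z_n = dim T - 1`), the `W_n` are points which are irreducible components of `V ∩ Z_n`
and are contained in no special subvariety smaller than `Z_n`; then the union of the `W_n` is
contained in a finite union of special subvarieties of `T` different from `T`. -/
def JustUnlikelyForm (X : Set (ι → K)) (𝒮 : Set (Set (ι → K))) (s : ℤ) : Prop :=
  ∀ T ∈ 𝒮, ∀ V, Subvariety X V → V ⊆ T → dim V = dim T - s - 1 → ∀ Z W : ℕ → Set (ι → K),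
    (∀ n, Z n ∈ 𝒮 ∧ Z n ⊆ T ∧ dim (Z n) = s ∧ IsComponent X (W n) (V ∩ Z n) ∧ dim (W n) = 0 ∧
      hull 𝒮 (W n) = Z n) →
    ∃ 𝓕 : Set (Set (ι → K)), 𝓕.Finite ∧ (∀ S ∈ 𝓕, S ∈ 𝒮 ∧ S ⊂ T) ∧ (⋃ n, W n) ⊆ ⋃₀ 𝓕

/-- The optimal points of `V` for which the smallest special subvariety containing them has
dimension `s`. -/
def optimalPoints (X : Set (ι → K)) (𝒮 : Set (Set (ι → K))) (V : Set (ι → K)) (s : ℤ) :
    Set (Set (ι → K)) :=
  {A | Optimal X 𝒮 V A ∧ dim A = 0 ∧ dim (hull 𝒮 A) = s}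

end Definitions

section

variable {K : Type} [Field K] [IsAlgClosed K] [Uncountable K] {ι : Type} [Fintype ι]
  {X : Set (ι → K)} {𝒮 : Set (Set (ι → K))}

theorem vd_pos (hX : QuasiProjective X) {A : Set (ι → K)} (hA : Subvariety X A) : 1 ≤ vd A := by
  haveI : Infinite K := IsAlgClosed.instInfinite
  obtain ⟨x, hx⟩ := hA.nonempty
  have h1 := vd_mono hX.cone (line_sub hX.cone hX.zero (hA.subset hx)) hA
    (line_subset hA.closed.1 hx)
  rwa [vd_line hX.cone hX.zero (hA.subset hx)] at h1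

/-- enlarging `V` keeps the optimal points whose hull has dimension `s` -/
theorem enlarge (hX : QuasiProjective X) (h𝒮 : SpecialStructure X 𝒮) {T V : Set (ι → K)}
    (hT : T ∈ 𝒮) (hV : Subvariety X V) (hVT : V ⊆ T) (s : ℕ) (hd : vd V + (s + 1) ≤ vd T) :
    ∃ U, Subvariety X U ∧ V ⊆ U ∧ U ⊆ T ∧ dim U = dim T - s - 1 ∧
      optimalPoints X 𝒮 V s ⊆ optimalPoints X 𝒮 U s := by
  haveI : Infinite K := IsAlgClosed.instInfinite
  obtain ⟨U, hU, hVU, hUT, hUd, hUB⟩ := exists_chain hX 𝒮 h𝒮.countable h𝒮.subvariety hV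
    (h𝒮.subvariety T hT) hVT (s + 1) hd
  refine ⟨U, hU, hVU, hUT, ?_, ?_⟩
  · rw [dim_eq, dim_eq]
    omega
  · rintro A ⟨hA, hA0, hAs⟩
    refine ⟨⟨hA.1, hA.2.1.trans hVU, fun B hB hAB hBU hdef => ?_⟩, hA0, hAs⟩
    by_cases hBV : B ⊆ V
    · exact hA.2.2 B hB hAB hBV hdef
    · have hBT : B ⊆ T := hBU.trans hUT
      have hh := hull_mem hX.cone h𝒮 hB hT hBT
      have h1 := hUB _ hh B hB (subset_hull B) hBU hBV
      rw [defect, defect, hA0, hAs, dim_eq, dim_eq] at hdef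
      omega

theorem component_of_optimal (hX : QuasiProjective X) (h𝒮 : SpecialStructure X 𝒮)
    {B V T : Set (ι → K)} (hT : T ∈ 𝒮) (hVT : V ⊆ T) (hB : Optimal X 𝒮 V B) :
    IsComponent X B (V ∩ hull 𝒮 B) := by
  haveI : Infinite K := IsAlgClosed.instInfinite
  have hBT : B ⊆ T := hB.2.1.trans hVT
  have hh := hull_mem hX.cone h𝒮 hB.1 hT hBT
  refine ⟨hB.1, Set.subset_inter hB.2.1 (subset_hull B), fun D hD hBD hDV => ?_⟩
  by_contra hne
  have hBD' : B ⊂ D := Set.ssubset_iff_subset_ne.2 ⟨hBD, Ne.symm hne⟩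
  refine hB.2.2 D hD hBD' (hDV.trans Set.inter_subset_left) ?_
  have h1 := vd_strict hX.cone hB.1 hD hBD'
  have h2 : hull 𝒮 D ⊆ hull 𝒮 B := hull_subset hh (hDV.trans Set.inter_subset_right)
  have h3 : hull 𝒮 D = hull 𝒮 B := Set.Subset.antisymm h2 (hull_mono hBD)
  rw [defect, defect, h3, dim_eq D, dim_eq B]
  omega

/-- the dimension estimate for optimal points -/
theorem dim_est (hX : QuasiProjective X) {V A : Set (ι → K)} (hV : Subvariety X V) {s : ℤ}
    (hA : A ∈ optimalPoints X 𝒮 V s) (hne : A ≠ V) : s < dim (hull 𝒮 V) - dim V := by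
  have h1 := hA.1.2.2 V hV (Set.ssubset_iff_subset_ne.2 ⟨hA.1.2.1, hne⟩) le_rfl
  rw [not_le, defect, defect, hA.2.1, hA.2.2] at h1
  linarith

theorem s_nonneg (hX : QuasiProjective X) (h𝒮 : SpecialStructure X 𝒮) {T V A : Set (ι → K)}
    (hT : T ∈ 𝒮) (hVT : V ⊆ T) {s : ℤ}
    (hA : A ∈ optimalPoints X 𝒮 V s) : 0 ≤ s := by
  haveI : Infinite K := IsAlgClosed.instInfinite
  have hh := hull_mem hX.cone h𝒮 hA.1.1 hT (hA.1.2.1.trans hVT)
  have h1 := vd_pos hX (h𝒮.subvariety _ hh)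
  rw [← hA.2.2, dim_eq]
  omega

/-- the parts of the conjecture with a given dimension of the special subvarieties -/
theorem points_iff (hX : QuasiProjective X) (h𝒮 : SpecialStructure X 𝒮) (s : ℤ) :
    (∀ T ∈ 𝒮, ∀ V, Subvariety X V → V ⊆ T → (optimalPoints X 𝒮 V s).Finite) ↔
    (∀ T ∈ 𝒮, ∀ V, Subvariety X V → V ⊆ T → hull 𝒮 V = T → dim V = dim T - s - 1 →
      (optimalPoints X 𝒮 V s).Finite) := by
  haveI : Infinite K := IsAlgClosed.instInfinite
  refine ⟨fun h T hT V hV hVT _ _ => h T hT V hV hVT, fun h T hT V hV hVT => ?_⟩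
  by_contra hinf
  rw [← Set.Infinite] at hinf
  have hT' := hull_mem hX.cone h𝒮 hV hT hVT
  obtain ⟨A, hA, hAV⟩ := (hinf.diff (Set.finite_singleton V)).nonempty
  have h0 := s_nonneg hX h𝒮 hT hVT hA
  obtain ⟨m, rfl⟩ := Int.eq_ofNat_of_zero_le h0
  have h1 := dim_est hX hV hA hAV
  have h2 : vd V + (m + 1) ≤ vd (hull 𝒮 V) := by
    rw [dim_eq, dim_eq] at h1
    omega
  obtain ⟨U, hU, hVU, hUT, hUd, hUo⟩ := enlarge hX h𝒮 hT' hV (subset_hull V) m h2
  refine hinf ((h _ hT' U hU hUT ?_ hUd).subset hUo)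
  exact Set.Subset.antisymm (hull_subset hT' hUT) (hull_mono hVU)

/-- just unlikely points suffice for the points of the conjecture -/
theorem finite_of_just (hX : QuasiProjective X) (h𝒮 : SpecialStructure X 𝒮) (s : ℤ)
    (h : JustUnlikelyForm X 𝒮 s) {T : Set (ι → K)} (hT : T ∈ 𝒮) :
    ∀ V, Subvariety X V → V ⊆ T → (optimalPoints X 𝒮 V s).Finite := by
  classical
  haveI : Infinite K := IsAlgClosed.instInfinite
  suffices H : ∀ n : ℕ, ∀ V, Subvariety X V → V ⊆ T → vd V = n →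
      (optimalPoints X 𝒮 V s).Finite from fun V hV hVT => H _ V hV hVT rfl
  intro n
  induction n using Nat.strong_induction_on with
  | _ n ih =>
    rintro V hV hVT rfl
    by_contra hinf
    rw [← Set.Infinite] at hinf
    have hinf' := hinf.diff (Set.finite_singleton V)
    obtain ⟨A, hA, hAV⟩ := hinf'.nonempty
    have hT' := hull_mem hX.cone h𝒮 hV hT hVT
    have h0 := s_nonneg hX h𝒮 hT hVT hA
    obtain ⟨m, rfl⟩ := Int.eq_ofNat_of_zero_le h0
    have h1 := dim_est hX hV hA hAV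
    have h2 : vd V + (m + 1) ≤ vd (hull 𝒮 V) := by
      rw [dim_eq, dim_eq] at h1
      omega
    obtain ⟨U, hU, hVU, hUT, hUd, hUo⟩ := enlarge hX h𝒮 hT' hV (subset_hull V) m h2
    let a : ℕ → Set (ι → K) := fun n => (Set.Infinite.natEmbedding _ hinf' n : Set (ι → K))
    have ha : ∀ n, a n ∈ optimalPoints X 𝒮 V m := fun n =>
      (Set.Infinite.natEmbedding _ hinf' n).2.1
    have hainj : Function.Injective a := fun m n hmn =>
      (Set.Infinite.natEmbedding _ hinf').injective (Subtype.ext hmn)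
    obtain ⟨𝓕, hf, hp, hu⟩ := h _ hT' U hU hUT hUd (fun n => hull 𝒮 (a n)) a (fun n =>
      ⟨hull_mem hX.cone h𝒮 (ha n).1.1 hT' ((ha n).1.2.1.trans (subset_hull V)),
        hull_mono (ha n).1.2.1, (ha n).2.2,
        component_of_optimal hX h𝒮 hT' hUT (hUo (ha n)).1, (ha n).2.1, rfl⟩)
    have hcl : ∀ S ∈ 𝓕, Closed X S := fun S hS => (h𝒮.subvariety _ (hp S hS).1).closed
    by_cases hVF : V ⊆ ⋃₀ 𝓕
    · obtain ⟨S, hS, hVS⟩ := hV.mem_of_sUnion hf hcl hVF
      exact (hp S hS).2.2 (hull_subset (hp S hS).1 hVS)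
    · obtain ⟨𝓖, hg, hgs, hgu⟩ := exists_decomp X (hV.closed.inter (closed_sUnion hf hcl))
      have hsub : ∀ U ∈ 𝓖, U ⊆ V ∩ ⋃₀ 𝓕 := by
        intro U hU
        rw [← hgu]
        exact Set.subset_sUnion_of_mem hU
      have hlt : ∀ U ∈ 𝓖, vd U < vd V := by
        intro U hU
        refine vd_strict hX.cone (hgs U hU) hV
          ⟨(hsub U hU).trans Set.inter_subset_left, fun h2 => hVF ?_⟩
        exact h2.trans ((hsub U hU).trans Set.inter_subset_right)
      have hfin : (⋃ U ∈ 𝓖, optimalPoints X 𝒮 U m).Finite := by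
        refine hg.biUnion fun U hU => ?_
        exact ih _ (hlt U hU) U (hgs U hU)
          (((hsub U hU).trans Set.inter_subset_left).trans hVT) rfl
      refine Set.infinite_of_injective_forall_mem hainj (fun n => ?_) hfin
      have h3 : a n ⊆ ⋃₀ 𝓖 := by
        rw [hgu]
        exact Set.subset_inter (ha n).1.2.1 ((Set.subset_iUnion a n).trans hu)
      obtain ⟨W, hW, haW⟩ := (ha n).1.1.mem_of_sUnion hg (fun U hU => (hgs U hU).closed) h3
      refine Set.mem_biUnion hW ⟨⟨(ha n).1.1, haW, fun B hB haB hBW => ?_⟩, (ha n).2⟩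
      exact (ha n).1.2.2 B hB haB (hBW.trans ((hsub W hW).trans Set.inter_subset_left))

theorem just_of_sequence (hX : QuasiProjective X) (h𝒮 : SpecialStructure X 𝒮)
    (h : SequenceForm X 𝒮) (s : ℤ) : JustUnlikelyForm X 𝒮 s := by
  intro T hT V hV hVT hd Z W hZW
  have h1 := vd_pos hX (h𝒮.subvariety _ (hZW 0).1)
  have h2 := (hZW 0).2.2.1
  refine h T hT V hV (Set.ssubset_iff_subset_ne.2 ⟨hVT, ?_⟩) Z W fun n =>
    ⟨(hZW n).1, (hZW n).2.1, (hZW n).2.2.2.1, ?_⟩
  · rintro rfl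
    rw [dim_eq (Z 0)] at h2
    omega
  · rw [(hZW n).2.2.2.2.1, (hZW n).2.2.1]
    linarith

theorem sequence_iff (hX : QuasiProjective X) (h𝒮 : SpecialStructure X 𝒮) :
    SequenceForm X 𝒮 ↔ ∀ s : ℤ, JustUnlikelyForm X 𝒮 s := by
  classical
  haveI : Infinite K := IsAlgClosed.instInfinite
  refine ⟨fun h s => just_of_sequence hX h𝒮 h s, fun h => ?_⟩
  refine sequence_of_optimal hX.cone h𝒮 (optimal_of_point hX h𝒮 ?_)
  intro T hT V hV hVT
  have h1 : {A | Optimal X 𝒮 V A ∧ dim A = 0} ⊆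
      ⋃ s ∈ Set.Icc (0 : ℤ) (dim T), optimalPoints X 𝒮 V s := by
    rintro A ⟨hA, hA0⟩
    have hAT := hA.2.1.trans hVT
    have hh := hull_mem hX.cone h𝒮 hA.1 hT hAT
    have h2 := vd_mono hX.cone (h𝒮.subvariety _ hh) (h𝒮.subvariety _ hT) (hull_subset hT hAT)
    have h3 := vd_pos hX (h𝒮.subvariety _ hh)
    refine Set.mem_biUnion (x := dim (hull 𝒮 A)) ⟨?_, ?_⟩ ⟨hA, hA0, rfl⟩
    · rw [dim_eq]
      omega
    · rw [dim_eq, dim_eq]
      omega
  exact ((Set.finite_Icc _ _).biUnion fun s _ => finite_of_just hX h𝒮 s (h s) hT V hV hVT).subset h1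

end

end Pool.Agent.R370.JU
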