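import Pool.Agent.R370.JU.B

/-!
# Reduction of optimal subvarieties to points, with control of dimensions
-/

set_option autoImplicit false
set_option linter.unusedSectionVars false
set_option linter.style.haveILetI false

namespace Pool.Agent.R370.JU

open MvPolynomial Pool.Agent.R948 Pool.Agent.R948.ZP

variable {K : Type} [Field K] [IsAlgClosed K] {ι : Type} [Fintype ι]
  {X : Set (ι → K)} {𝒮 : Set (Set (ι → K))}

theorem hull_line {k : Type} [Field k] [Algebra k K] [IsAlgClosed k]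
    (h𝒮 : SpecialStructure X 𝒮) (hd𝒮 : ∀ S ∈ 𝒮, Def k S)
    {A : Set (ι → K)} (hA : Subvariety X A) {p : ι → K} (hpA : p ∈ A)
    (hp : ∀ f : MvPolynomial ι k, aeval p f = 0 ↔ f ∈ cont k A) :
    hull 𝒮 (line p) = hull 𝒮 A := by
  have hh1 : ∀ S' ∈ 𝒮, line p ⊆ S' → A ⊆ S' := by
    intro S' hS' hpS'
    refine Closed.le_of_van hA.subset (h𝒮.subvariety _ hS').closed (van_le_of_cont (hd𝒮 _ hS') ?_)
    intro g hg
    rw [← hp, ← eval_map_eq]
    exact hg p (hpS' (mem_line p))
  refine Set.Subset.antisymm (hull_mono (line_subset hA.closed.1 hpA)) ?_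
  intro x hx S' hS'
  exact hx S' ⟨hS'.1, hh1 S' hS'.1 hS'.2⟩

/-- infinitely many optimal subvarieties of `V` give infinitely many optimal points, with the same
hulls, on a generic linear section of `V` -/
theorem exists_section [Uncountable K] (hX : QuasiProjective X) (h𝒮 : SpecialStructure X 𝒮)
    {V : Set (ι → K)} (hV : Subvariety X V) (𝒜 : Set (Set (ι → K)))
    (h𝒜 : ∀ A ∈ 𝒜, Optimal X 𝒮 V A) (hinf : 𝒜.Infinite) :
    ∃ (W : Set (ι → K)) (n : ℕ), Subvariety X W ∧ W ⊆ V ∧ vd W + n ≤ vd V + 1 ∧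
      {p | Optimal X 𝒮 W p ∧ dim p = 0 ∧ ∃ A ∈ 𝒜, vd A = n ∧ hull 𝒮 p = hull 𝒮 A}.Infinite := by
  classical
  have hXc := hX.cone
  haveI : Infinite K := IsAlgClosed.instInfinite
  -- transcendence bases
  let Q : Finset ι → Set (ι → K) → Prop := fun S A => A ∈ 𝒜 ∧ vd A = S.card ∧
    AlgebraicIndependent K (fun i : S => cp (van A) i)
  have hex : ∃ S : Finset ι, {A | Q S A}.Infinite := by
    by_contra hcon
    push Not at hcon
    apply hinf
    have hsub : 𝒜 ⊆ ⋃ S : Finset ι, {A | Q S A} := by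
      intro A hA
      haveI := (h𝒜 A hA).1.prime hXc
      obtain ⟨S, hS, hind, -⟩ := exists_td K (cp (van A))
      exact Set.mem_iUnion.2 ⟨S, hA, by rw [vd_eq, hS]; rfl, hind⟩
    exact (Set.finite_iUnion fun S => hcon S).subset hsub
  obtain ⟨S, hSinf⟩ := hex
  let a : ℕ → Set (ι → K) := fun n => (Set.Infinite.natEmbedding _ hSinf n : Set (ι → K))
  have ha' : ∀ n, Q S (a n) := fun n => (Set.Infinite.natEmbedding _ hSinf n).2
  have ha : ∀ n, Optimal X 𝒮 V (a n) ∧ vd (a n) = S.card ∧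
    AlgebraicIndependent K (fun i : S => cp (van (a n)) i) := fun n => ⟨h𝒜 _ (ha' n).1, (ha' n).2⟩
  have hainj : Function.Injective a := fun m n hmn =>
    (Set.Infinite.natEmbedding _ hSinf).injective (Subtype.ext hmn)
  obtain ⟨F, G, hFG⟩ := hX.locallyClosed
  -- polynomials not vanishing on the subvarieties
  have hg : ∀ n, ∃ g ∈ G, g ∉ van (a n) := by
    intro n
    obtain ⟨x, hx⟩ := (ha n).1.1.nonempty
    have hxX := (ha n).1.1.subset hx
    rw [hFG] at hxX
    have hxG := hxX.2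
    simp only [zeros, Set.mem_ofPred_eq, not_forall] at hxG
    obtain ⟨g, hg, hgx⟩ := hxG
    exact ⟨g, hg, fun h1 => hgx (h1 x hx)⟩
  choose g hgG hgv using hg
  -- the field of definition
  obtain ⟨CV, hCV, hCV2⟩ := exists_coeffs (van V)
  choose CA hCA hCA2 using fun n => exists_coeffs (van (a n))
  choose CS hCS hCS2 using fun S' : Set (ι → K) => exists_coeffs (van S')
  let Call : Set K := CV ∪ (⋃ n, CA n) ∪ (⋃ S' ∈ 𝒮, CS S') ∪ (⋃ n, ((g n).coeffs : Set K))
  have hCall : Call.Countable := by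
    refine ((hCV.countable.union (Set.countable_iUnion fun n => (hCA n).countable)).union
      (h𝒮.countable.biUnion fun S' _ => (hCS S').countable)).union
      (Set.countable_iUnion fun n => (Finset.finite_toSet _).countable)
  obtain ⟨k, _, _, hkc, hkn, hsub⟩ := exists_field Call hCall
  have hVd : Def k V := hCV2 k fun c hc => hsub (Or.inl (Or.inl (Or.inl hc)))
  have hAd : ∀ n, Def k (a n) := fun n => hCA2 n k fun c hc =>
    hsub (Or.inl (Or.inl (Or.inr (Set.mem_iUnion.2 ⟨n, hc⟩))))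
  have hSd : ∀ S' ∈ 𝒮, Def k S' := fun S' hS' => hCS2 S' k fun c hc =>
    hsub (Or.inl (Or.inr (Set.mem_biUnion hS' hc)))
  have hgd : ∀ n, ∃ g' : MvPolynomial ι k, MvPolynomial.map (algebraMap k K) g' = g n := by
    intro n
    have h1 : g n ∈ Set.range (MvPolynomial.map (algebraMap k K)) := by
      rw [mem_range_map_iff_coeffs_subset]
      exact fun c hc => hsub (Or.inr (Set.mem_iUnion.2 ⟨n, hc⟩))
    exact h1
  obtain ⟨t, ht⟩ := exists_indep (k := k) (K := K) S
  -- the generic points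
  have hpt : ∀ n, ∃ p : ι → K, (∀ f : MvPolynomial ι k, aeval p f = 0 ↔ f ∈ cont k (a n)) ∧
      ∀ j : S, p j = t j := by
    intro n
    haveI := (ha n).1.1.prime hXc
    haveI := cont_prime (k := k) hXc (ha n).1.1
    refine exists_generic (cont k (a n)) S ?_ ?_ t ht
    · rw [algebraicIndependent_iff]
      intro f hf
      have h1 : rename Subtype.val f ∈ cont k (a n) := by
        rw [← aeval_cp_eq_zero, aeval_rename]
        exact hf
      have h2 : MvPolynomial.map (algebraMap k K) (rename Subtype.val f) ∈ van (a n) := h1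
      rw [map_rename, ← aeval_cp_eq_zero, aeval_rename] at h2
      have h3 := algebraicIndependent_iff.1 (ha n).2.2 _ h2
      exact MvPolynomial.map_injective _ (algebraMap k K).injective (by rw [h3, map_zero])
    · rw [← (ha n).2.1, vd_eq]
      exact tdP_le_map _ _ (hAd n).symm
  choose p hp hpt using hpt
  have hpA : ∀ n, p n ∈ a n := by
    intro n
    have h1 : p n ∈ zeros (van (a n) : Set (MvPolynomial ι K)) := by
      intro f hf
      have h2 : (cont k (a n)).map (MvPolynomial.map (algebraMap k K)) ≤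
          RingHom.ker (eval (p n)) := by
        rw [Ideal.map_le_iff_le_comap]
        intro f' hf'
        rw [Ideal.mem_comap, RingHom.mem_ker, eval_map_eq]
        exact (hp n f').2 hf'
      have h3 : f ∈ (cont k (a n)).map (MvPolynomial.map (algebraMap k K)) := by
        rw [hAd n]
        exact hf
      exact h2 h3
    rw [← (ha n).1.1.closed.eq]
    refine ⟨?_, h1⟩
    rw [hFG]
    refine ⟨fun f hf => h1 f fun x hx => ?_, fun h2 => ?_⟩
    · have h3 := (ha n).1.1.subset hx
      rw [hFG] at h3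
      exact h3.1 f hf
    · obtain ⟨g', hg'⟩ := hgd n
      have h3 := h2 (g n) (hgG n)
      rw [← hg', eval_map_eq, hp] at h3
      apply hgv n
      rw [← hg']
      exact h3
  have hpX : ∀ n, p n ∈ X := fun n => (ha n).1.1.subset (hpA n)
  -- the section
  have hZ : Closed X (V ∩ (X ∩ sect t)) := hV.closed.inter (sect_closed hXc t)
  obtain ⟨𝓕, hf, hs, hu⟩ := exists_decomp X hZ
  have hsZ : ∀ W ∈ 𝓕, W ⊆ V ∩ (X ∩ sect t) := by
    intro W hW
    rw [← hu]
    exact Set.subset_sUnion_of_mem hW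
  have hinj : Function.Injective fun n => line (p n) := by
    intro m n hmn
    obtain ⟨j₀, hj₀⟩ : S.Nonempty := by
      rw [← Finset.card_pos, ← (ha m).2.1]
      have h1 := vd_mono hXc (line_sub hXc hX.zero (hpX m)) (ha m).1.1
        (line_subset (ha m).1.1.closed.1 (hpA m))
      rw [vd_line hXc hX.zero (hpX m)] at h1
      omega
    have h1 : p m ∈ line (p n) := by
      have h2 : line (p m) = line (p n) := hmn
      rw [← h2]
      exact mem_line _
    obtain ⟨c, -, hc⟩ := h1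
    have h2 := congrFun hc j₀
    rw [Pi.smul_apply, hpt m ⟨j₀, hj₀⟩, hpt n ⟨j₀, hj₀⟩, smul_eq_mul] at h2
    have h3 : c = 1 := by
      have h4 : t ⟨j₀, hj₀⟩ ≠ 0 := ht.ne_zero _
      have h5 : (c - 1) * t ⟨j₀, hj₀⟩ = 0 := by linear_combination -h2
      rcases mul_eq_zero.1 h5 with h6 | h6
      · exact sub_eq_zero.1 h6
      · exact absurd h6 h4
    rw [h3, one_smul] at hc
    have h4 : cont k (a m) = cont k (a n) := by
      ext f
      rw [← hp m, ← hp n, hc]
    apply hainj
    rw [← (ha m).1.1.closed.eq, ← (ha n).1.1.closed.eq, ← hAd m, ← hAd n, h4]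
  have hmem : ∀ n, ∃ W ∈ 𝓕, line (p n) ⊆ W := by
    intro n
    have h1 : line (p n) ⊆ ⋃₀ 𝓕 := by
      rw [hu]
      refine Set.subset_inter (line_subset hV.closed.1 ((ha n).1.2.1 (hpA n)))
        (line_subset (sect_closed hXc t).1 ⟨hpX n, fun i j => ?_⟩)
      rw [hpt n i, hpt n j]
      ring
    exact (line_sub hXc hX.zero (hpX n)).mem_of_sUnion hf (fun W hW => (hs W hW).closed) h1
  -- one component contains infinitely many of the points
  have hone : ∃ W ∈ 𝓕, {n | line (p n) ⊆ W}.Infinite := by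
    by_contra hcon
    push Not at hcon
    have h1 : (⋃ W ∈ 𝓕, {n | line (p n) ⊆ W}).Finite := hf.biUnion fun W hW => hcon W hW
    refine Set.infinite_univ (α := ℕ) (h1.subset fun n _ => ?_)
    obtain ⟨W, hW, hpW⟩ := hmem n
    exact Set.mem_biUnion hW hpW
  obtain ⟨W, hW, hWinf⟩ := hone
  have hWV : W ⊆ V := (hsZ W hW).trans Set.inter_subset_left
  have hWs : W ⊆ sect t := ((hsZ W hW).trans Set.inter_subset_right).trans Set.inter_subset_right
  refine ⟨W, S.card, hs W hW, hWV, ?_, ?_⟩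
  · haveI := cont_prime (k := k) hXc (hs W hW)
    obtain ⟨n, hn⟩ := hWinf.nonempty
    have hrel : ∀ i j : S, MvPolynomial.X i.1 * C (t j) - MvPolynomial.X j.1 * C (t i) ∈ van W := by
      intro i j x hx
      simp only [map_sub, map_mul, eval_X, eval_C]
      rw [hWs hx i j, sub_self]
    have hne : ∀ j : S, MvPolynomial.X j.1 ∉ van W := by
      intro j hj
      have h1 := hj (p n) (hn (mem_line _))
      rw [eval_X, hpt n j] at h1
      exact ht.ne_zero j h1
    have h1 := dim_ineq (k := k) hXc (hs W hW) S t ht hrel hne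
    have h2 : tdP (cont k W) ≤ vd (clo k X W) := vd_clo (k := k) hX (hs W hW) hV hVd hWV
    have h3 : vd (clo k X W) ≤ vd V := vd_mono hXc (clo_sub hX (hs W hW) hV hVd hWV) hV
      (clo_subset hV.closed hVd (cont_anti hWV))
    omega
  · have h1 : ((fun n => line (p n)) '' {n | line (p n) ⊆ W}).Infinite :=
      hWinf.image hinj.injOn
    refine h1.mono ?_
    rintro _ ⟨n, hn, rfl⟩
    refine ⟨?_, ?_, a n, (ha' n).1, (ha n).2.1, ?_⟩
    · exact optimal_line hX h𝒮 hSd hV hVd (ha n).1 S (ha n).2.1 t ht (hpA n)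
        (hp n) (hpt n) hWV hWs hn
    · change dim (line (p n)) = 0
      rw [dim_eq, vd_line hXc hX.zero (hpX n)]
      norm_num
    · exact hull_line h𝒮 hSd (ha n).1.1 (hpA n) (hp n)

/-- The optimal subvarieties of `V` for which the smallest special subvariety containing them has
dimension `s`. -/
def optimalSubvarieties (X : Set (ι → K)) (𝒮 : Set (Set (ι → K))) (V : Set (ι → K)) (s : ℤ) :
    Set (Set (ι → K)) :=
  {A | Optimal X 𝒮 V A ∧ dim (hull 𝒮 A) = s}

/-- the key step: enlarging a section to the diagonal dimension -/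
theorem diag [Uncountable K] (hX : QuasiProjective X) (h𝒮 : SpecialStructure X 𝒮)
    {T : Set (ι → K)} (hT : T ∈ 𝒮) {V : Set (ι → K)} (hV : Subvariety X V) (hVT : hull 𝒮 V = T)
    {s : ℤ} (hs : s < dim T) (hinf : (optimalSubvarieties X 𝒮 V s).Infinite) :
    ∃ U, Subvariety X U ∧ hull 𝒮 U = T ∧ dim U = dim T - s - 1 ∧
      (optimalPoints X 𝒮 U s).Infinite := by
  classical
  haveI : Infinite K := IsAlgClosed.instInfinite
  obtain ⟨W, n, hW, hWV, hd, hinf2⟩ := exists_section hX h𝒮 hV _ (fun A hA => hA.1) hinf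
  have hVT' : V ⊆ T := hVT ▸ subset_hull V
  have hWT : W ⊆ T := hWV.trans hVT'
  have hsub : {p | Optimal X 𝒮 W p ∧ dim p = 0 ∧ ∃ A ∈ optimalSubvarieties X 𝒮 V s,
      vd A = n ∧ hull 𝒮 p = hull 𝒮 A} ⊆ optimalPoints X 𝒮 W s := by
    rintro p ⟨h1, h2, A, hA, -, h3⟩
    exact ⟨h1, h2, by rw [h3]; exact hA.2⟩
  have hinf3 : (optimalPoints X 𝒮 W s).Infinite := hinf2.mono hsub
  obtain ⟨p, hp, hpW⟩ := (hinf2.diff (Set.finite_singleton W)).nonempty
  have hpo := hsub hp
  have h0 := s_nonneg hX h𝒮 hT hWT hpo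
  obtain ⟨m, rfl⟩ := Int.eq_ofNat_of_zero_le h0
  -- the dimension estimate
  have hle : vd W + (m + 1) ≤ vd T := by
    obtain ⟨-, -, A, hA, hAn, -⟩ := hp
    have hAV : A ≠ V := by
      rintro rfl
      have h1 := hA.2
      rw [hVT] at h1
      omega
    have h1 := hA.1.2.2 V hV (Set.ssubset_iff_subset_ne.2 ⟨hA.1.2.1, hAV⟩) le_rfl
    rw [not_le, defect, defect, hA.2, hVT, dim_eq, dim_eq, dim_eq, hAn] at h1
    omega
  rcases Nat.lt_or_ge (vd W + (m + 1)) (vd T) with hlt | hge
  · obtain ⟨U, hU, hWU, hUT, hUd, hUB⟩ := exists_chain hX 𝒮 h𝒮.countable h𝒮.subvariety hW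
      (h𝒮.subvariety T hT) hWT (m + 1) hle
    have hUW : ¬ U ⊆ W := by
      intro h
      have h1 := vd_mono hX.cone hU hW h
      omega
    refine ⟨U, hU, ?_, ?_, hinf3.mono ?_⟩
    · have hh := hull_mem hX.cone h𝒮 hU hT hUT
      have h1 := hUB _ hh U hU (subset_hull U) le_rfl hUW
      have h2 := hull_subset hT hUT
      exact eq_of_vd hX.cone (h𝒮.subvariety _ hh) (h𝒮.subvariety _ hT) h2 (by omega)
    · rw [dim_eq, dim_eq]
      omega
    · rintro A ⟨hA, hA0, hAs⟩
      refine ⟨⟨hA.1, hA.2.1.trans hWU, fun B hB hAB hBU hdef => ?_⟩, hA0, hAs⟩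
      by_cases hBV : B ⊆ W
      · exact hA.2.2 B hB hAB hBV hdef
      · have hBT : B ⊆ T := hBU.trans hUT
        have hh := hull_mem hX.cone h𝒮 hB hT hBT
        have h1 := hUB _ hh B hB (subset_hull B) hBU hBV
        rw [defect, defect, hA0, hAs, dim_eq, dim_eq] at hdef
        omega
  · have heq : vd W + (m + 1) = vd T := le_antisymm hle hge
    refine ⟨W, hW, ?_, ?_, hinf3⟩
    · have hh := hull_mem hX.cone h𝒮 hW hT hWT
      refine eq_of_vd hX.cone (h𝒮.subvariety _ hh) (h𝒮.subvariety _ hT) (hull_subset hT hWT) ?_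
      have h1 := dim_est hX hW hpo hpW
      rw [dim_eq, dim_eq] at h1
      omega
    · rw [dim_eq, dim_eq]
      omega

/-- **Reduction in each codimension.** -/
theorem codim_iff [Uncountable K] (hX : QuasiProjective X) (h𝒮 : SpecialStructure X 𝒮)
    {T : Set (ι → K)} (hT : T ∈ 𝒮) (c : ℤ) (hc : 1 ≤ c) :
    (∀ V, Subvariety X V → hull 𝒮 V = T →
      (optimalSubvarieties X 𝒮 V (dim T - c)).Finite) ↔
    (∀ V, Subvariety X V → hull 𝒮 V = T → dim V = c - 1 →
      (optimalPoints X 𝒮 V (dim T - c)).Finite) := by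
  constructor
  · intro h V hV hVT _
    exact (h V hV hVT).subset fun A hA => ⟨hA.1, hA.2.2⟩
  · intro h V hV hVT
    by_contra hinf
    obtain ⟨U, hU, hUT, hUd, hUinf⟩ := diag hX h𝒮 hT hV hVT (by omega) hinf
    exact hUinf (h U hU hUT (by rw [hUd]; ring))

theorem sequence_iff_codim [Uncountable K] (hX : QuasiProjective X)
    (h𝒮 : SpecialStructure X 𝒮) :
    SequenceForm X 𝒮 ↔ ∀ T ∈ 𝒮, ∀ c : ℤ, 2 ≤ c → ∀ V, Subvariety X V → hull 𝒮 V = T →
      dim V = c - 1 → (optimalPoints X 𝒮 V (dim T - c)).Finite := by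
  classical
  haveI : Infinite K := IsAlgClosed.instInfinite
  constructor
  · intro h T hT c _ V hV hVT _
    have h1 : PointForm X 𝒮 := ((forms_tfae hX h𝒮).out 0 3).1 h
    exact (h1 T hT V hV (hVT ▸ subset_hull V)).subset fun A hA => ⟨hA.1, hA.2.1⟩
  · intro h
    refine ((forms_tfae hX h𝒮).out 2 0).1 ?_
    intro T₀ hT₀ V hV hVT₀
    have hT := hull_mem hX.cone h𝒮 hV hT₀ hVT₀
    have h1 : {A | Optimal X 𝒮 V A} ⊆ {V} ∪
        ⋃ c ∈ Set.Icc (1 : ℤ) (dim (hull 𝒮 V)), optimalSubvarieties X 𝒮 V (dim (hull 𝒮 V) - c) := by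
      intro A hA
      rcases eq_or_ne A V with rfl | hne
      · exact Or.inl rfl
      right
      have hhA := hull_mem hX.cone h𝒮 hA.1 hT₀ (hA.2.1.trans hVT₀)
      have hAV : A ⊂ V := Set.ssubset_iff_subset_ne.2 ⟨hA.2.1, hne⟩
      have h2 := hA.2.2 V hV hAV le_rfl
      have h3 := vd_strict hX.cone hA.1 hV hAV
      rw [not_le, defect, defect, dim_eq, dim_eq, dim_eq, dim_eq] at h2
      have h4 := vd_pos hX (h𝒮.subvariety _ hhA)
      refine Set.mem_biUnion (x := dim (hull 𝒮 V) - dim (hull 𝒮 A)) ⟨?_, ?_⟩ ⟨hA, ?_⟩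
      · rw [dim_eq, dim_eq]
        omega
      · rw [dim_eq, dim_eq]
        omega
      · ring
    refine ((Set.finite_singleton V).union ((Set.finite_Icc _ _).biUnion fun c hc => ?_)).subset h1
    refine (codim_iff hX h𝒮 hT c hc.1).2 (fun U hU hUT hUd => ?_) V hV rfl
    rcases eq_or_lt_of_le hc.1 with rfl | hc2
    · -- a point whose hull is `T`
      refine (Set.finite_singleton U).subset fun A hA => ?_
      by_contra hne
      have h2 := vd_strict hX.cone hA.1.1 hU (Set.ssubset_iff_subset_ne.2 ⟨hA.1.2.1, hne⟩)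
      have h3 := vd_pos hX hA.1.1
      rw [dim_eq] at hUd
      omega
    · exact h _ hT c (by omega) U hU hUT hUd

end Pool.Agent.R370.JU
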