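import Pool.Agent.R370.JU.C

/-!
# Consequences for atypical subvarieties
-/

set_option autoImplicit false
set_option linter.unusedSectionVars false
set_option linter.style.haveILetI false

namespace Pool.Agent.R370.JU

open MvPolynomial Pool.Agent.R948 Pool.Agent.R948.ZP

/-- The conjecture for points, in codimension `c`, on `T`: every subvariety `V` of dimension
`c - 1`, for which the smallest special subvariety containing `V` is `T`, has only finitely many
optimal points `p` for which the smallest special subvariety containing `p` has codimension `c` in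
`T`. -/
def PointsInCodim {K : Type} [Field K] {ι : Type} [Fintype ι] (X : Set (ι → K))
    (𝒮 : Set (Set (ι → K))) (T : Set (ι → K)) (c : ℤ) : Prop :=
  ∀ V, Subvariety X V → hull 𝒮 V = T → dim V = c - 1 → (optimalPoints X 𝒮 V (dim T - c)).Finite

/-- The conjecture in codimension `c` on `T`: every subvariety `V` (of any dimension), for which the
smallest special subvariety containing `V` is `T`, has only finitely many optimal subvarieties `A`
for which the smallest special subvariety containing `A` has codimension `c` in `T`. -/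
def AllInCodim {K : Type} [Field K] {ι : Type} [Fintype ι] (X : Set (ι → K))
    (𝒮 : Set (Set (ι → K))) (T : Set (ι → K)) (c : ℤ) : Prop :=
  ∀ V, Subvariety X V → hull 𝒮 V = T → (optimalSubvarieties X 𝒮 V (dim T - c)).Finite

variable {K : Type} [Field K] [IsAlgClosed K] {ι : Type} [Fintype ι]
  {X : Set (ι → K)} {𝒮 : Set (Set (ι → K))}

theorem pointsInCodim_one (hX : QuasiProjective X) (T : Set (ι → K)) :
    PointsInCodim X 𝒮 T 1 := by
  haveI : Infinite K := IsAlgClosed.instInfinite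
  intro U hU _ hUd
  refine (Set.finite_singleton U).subset fun A hA => ?_
  by_contra hne
  have h2 := vd_strict hX.cone hA.1.1 hU (Set.ssubset_iff_subset_ne.2 ⟨hA.1.2.1, hne⟩)
  have h3 := vd_mono hX.cone hA.1.1 hU hA.1.2.1
  have h4 : 1 ≤ vd A := by
    obtain ⟨x, hx⟩ := hA.1.1.nonempty
    have h1 := vd_mono hX.cone (line_sub hX.cone hX.zero (hA.1.1.subset hx)) hA.1.1
      (line_subset hA.1.1.closed.1 hx)
    rwa [vd_line hX.cone hX.zero (hA.1.1.subset hx)] at h1
  rw [dim_eq] at hUd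
  omega

/-- atypical subvarieties whose hull has codimension at most `c` -/
theorem atypical_of_points [Uncountable K] (hX : QuasiProjective X)
    (h𝒮 : SpecialStructure X 𝒮) {T : Set (ι → K)} (hT : T ∈ 𝒮) (c : ℤ)
    (h : ∀ c', 2 ≤ c' → c' ≤ c → PointsInCodim X 𝒮 T c') (V : Set (ι → K))
    (hV : Subvariety X V) (hVT : hull 𝒮 V = T) :
    ∃ 𝓕 : Set (Set (ι → K)), 𝓕.Finite ∧ (∀ B ∈ 𝓕, Atypical X 𝒮 T V B) ∧
      ∀ A, Atypical X 𝒮 T V A → dim T - dim (hull 𝒮 A) ≤ c → ∃ B ∈ 𝓕, A ⊆ B := by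
  classical
  haveI : Infinite K := IsAlgClosed.instInfinite
  have hVT' : V ⊆ T := hVT ▸ subset_hull V
  have hall : ∀ c', 1 ≤ c' → c' ≤ c → (optimalSubvarieties X 𝒮 V (dim T - c')).Finite := by
    intro c' h1 h2
    refine (codim_iff hX h𝒮 hT c' h1).2 ?_ V hV hVT
    rcases eq_or_lt_of_le h1 with rfl | h3
    · exact pointsInCodim_one hX T
    · exact h c' (by omega) h2
  refine ⟨(⋃ c' ∈ Set.Icc (1 : ℤ) c, optimalSubvarieties X 𝒮 V (dim T - c')) ∩
    {B | defect 𝒮 B < dim T - dim V}, ?_, ?_, ?_⟩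
  · exact ((Set.finite_Icc _ _).biUnion fun c' hc' => hall c' hc'.1 hc'.2).inter_of_left _
  · rintro B ⟨hB, hBd⟩
    obtain ⟨c', -, hB2⟩ := Set.mem_iUnion₂.1 hB
    exact optimal_atypical hX.cone h𝒮 hT hVT' hB2.1 hBd
  · rintro A ⟨Z, hZ, hZT, hA⟩ hAc
    obtain ⟨B, hB, hAB, hBd⟩ := exists_optimal (𝒮 := 𝒮) hX.cone hA.1.1
      (hA.1.2.1.trans Set.inter_subset_left)
    have h1 := hBd.trans_lt (defect_le_of_component hX.cone h𝒮 hZ hA)
    have hBT : B ⊆ T := hB.2.1.trans hVT'
    have hhB := hull_mem hX.cone h𝒮 hB.1 hT hBT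
    have hhA := hull_mem hX.cone h𝒮 hA.1.1 hT (hAB.trans hBT)
    have h2 := vd_mono hX.cone (h𝒮.subvariety _ hhA) (h𝒮.subvariety _ hhB) (hull_mono hAB)
    have h3 := vd_mono hX.cone hB.1 hV hB.2.1
    refine ⟨B, ⟨Set.mem_biUnion (x := dim T - dim (hull 𝒮 B)) ⟨?_, ?_⟩ ⟨hB, by ring⟩, h1⟩, hAB⟩
    · rw [defect, dim_eq B, dim_eq V] at h1
      omega
    · rw [dim_eq (hull 𝒮 A)] at hAc
      rw [dim_eq (hull 𝒮 B)]
      omega

end Pool.Agent.R370.JU
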