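import Pool.Agent.R370.JU.C

/-!
# Classes of special subvarieties of a given codimension
-/

set_option autoImplicit false
set_option linter.unusedSectionVars false
set_option linter.style.haveILetI false

namespace Pool.Agent.R370.JU

open MvPolynomial Pool.Agent.R948 Pool.Agent.R948.ZP

/-- The optimal subvarieties `A` of `V` such that the smallest special subvariety containing `A`
belongs to `Φ`. -/
def optimalIn {K : Type} [Field K] {ι : Type} [Fintype ι] (X : Set (ι → K))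
    (𝒮 Φ : Set (Set (ι → K))) (V : Set (ι → K)) : Set (Set (ι → K)) :=
  {A | Optimal X 𝒮 V A ∧ hull 𝒮 A ∈ Φ}

/-- The optimal points `p` of `V` such that the smallest special subvariety containing `p`
belongs to `Φ`. -/
def optimalPointsIn {K : Type} [Field K] {ι : Type} [Fintype ι] (X : Set (ι → K))
    (𝒮 Φ : Set (Set (ι → K))) (V : Set (ι → K)) : Set (Set (ι → K)) :=
  {A | Optimal X 𝒮 V A ∧ dim A = 0 ∧ hull 𝒮 A ∈ Φ}

variable {K : Type} [Field K] [IsAlgClosed K] [Uncountable K] {ι : Type} [Fintype ι]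
  {X : Set (ι → K)} {𝒮 Φ : Set (Set (ι → K))}

/-- the key step -/
theorem diagΦ (hX : QuasiProjective X) (h𝒮 : SpecialStructure X 𝒮)
    {T : Set (ι → K)} (hT : T ∈ 𝒮) {V : Set (ι → K)} (hV : Subvariety X V) (hVT : hull 𝒮 V = T)
    {s : ℤ} (hs : s < dim T) (hΦ : ∀ S ∈ Φ, dim S = s) (hinf : (optimalIn X 𝒮 Φ V).Infinite) :
    ∃ U, Subvariety X U ∧ hull 𝒮 U = T ∧ dim U = dim T - s - 1 ∧
      (optimalPointsIn X 𝒮 Φ U).Infinite := by
  classical
  haveI : Infinite K := IsAlgClosed.instInfinite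
  obtain ⟨W, n, hW, hWV, hd, hinf2⟩ := exists_section hX h𝒮 hV _ (fun A hA => hA.1) hinf
  have hVT' : V ⊆ T := hVT ▸ subset_hull V
  have hWT : W ⊆ T := hWV.trans hVT'
  have hsub : {p | Optimal X 𝒮 W p ∧ dim p = 0 ∧ ∃ A ∈ optimalIn X 𝒮 Φ V,
      vd A = n ∧ hull 𝒮 p = hull 𝒮 A} ⊆ optimalPointsIn X 𝒮 Φ W := by
    rintro p ⟨h1, h2, A, hA, -, h3⟩
    exact ⟨h1, h2, by rw [h3]; exact hA.2⟩
  have hinf3 : (optimalPointsIn X 𝒮 Φ W).Infinite := hinf2.mono hsub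
  have hps : ∀ U, optimalPointsIn X 𝒮 Φ U ⊆ optimalPoints X 𝒮 U s :=
    fun U A hA => ⟨hA.1, hA.2.1, hΦ _ hA.2.2⟩
  obtain ⟨p, hp, hpW⟩ := (hinf2.sdiff (Set.finite_singleton W)).nonempty
  have hpo := hps W (hsub hp)
  have h0 := s_nonneg hX h𝒮 hT hWT hpo
  obtain ⟨m, rfl⟩ := Int.eq_ofNat_of_zero_le h0
  -- the dimension estimate
  have hle : vd W + (m + 1) ≤ vd T := by
    obtain ⟨-, -, A, hA, hAn, -⟩ := hp
    have hAs := hΦ _ hA.2
    have hAV : A ≠ V := by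
      rintro rfl
      rw [hVT] at hAs
      omega
    have h1 := hA.1.2.2 V hV (Set.ssubset_iff_subset_ne.2 ⟨hA.1.2.1, hAV⟩) le_rfl
    rw [not_le, defect, defect, hAs, hVT, dim_eq, dim_eq, dim_eq, hAn] at h1
    omega
  rcases Nat.lt_or_ge (vd W + (m + 1)) (vd T) with hlt | hge
  · obtain ⟨U, hU, hWU, hUT, hUd, hUB⟩ := exists_chain hX 𝒮 h𝒮.countable h𝒮.subvariety hW
      (h𝒮.subvariety T hT) hWT (m + 1) hle
    have hUW : ¬ U ⊆ W := by
      intro h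
      have h1 := vd_mono hX.cone hU hW h
      omega
    refine ⟨U, hU, ?_, ?_, hinf3.mono ?_⟩
    · have hh := hull_mem hX.cone h𝒮 hU hT hUT
      have h1 := hUB _ hh U hU (subset_hull U) le_rfl hUW
      have h2 := hull_subset hT hUT
      exact eq_of_vd hX.cone (h𝒮.subvariety _ hh) (h𝒮.subvariety _ hT) h2 (by omega)
    · rw [dim_eq, dim_eq]
      omega
    · rintro A ⟨hA, hA0, hAΦ⟩
      have hAs := hΦ _ hAΦ
      refine ⟨⟨hA.1, hA.2.1.trans hWU, fun B hB hAB hBU hdef => ?_⟩, hA0, hAΦ⟩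
      by_cases hBV : B ⊆ W
      · exact hA.2.2 B hB hAB hBV hdef
      · have hBT : B ⊆ T := hBU.trans hUT
        have hh := hull_mem hX.cone h𝒮 hB hT hBT
        have h1 := hUB _ hh B hB (subset_hull B) hBU hBV
        rw [defect, defect, hA0, hAs, dim_eq, dim_eq] at hdef
        omega
  · have heq : vd W + (m + 1) = vd T := le_antisymm hle hge
    refine ⟨W, hW, ?_, ?_, hinf3⟩
    · have hh := hull_mem hX.cone h𝒮 hW hT hWT
      refine eq_of_vd hX.cone (h𝒮.subvariety _ hh) (h𝒮.subvariety _ hT) (hull_subset hT hWT) ?_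
      have h1 := dim_est hX hW hpo hpW
      rw [dim_eq, dim_eq] at h1
      omega
    · rw [dim_eq, dim_eq]
      omega

/-- **Each class of special subvarieties of codimension `c`.** -/
theorem class_iff (hX : QuasiProjective X) (h𝒮 : SpecialStructure X 𝒮)
    {T : Set (ι → K)} (hT : T ∈ 𝒮) (c : ℤ) (hc : 1 ≤ c) (hΦ : ∀ S ∈ Φ, dim S = dim T - c) :
    (∀ V, Subvariety X V → hull 𝒮 V = T → (optimalIn X 𝒮 Φ V).Finite) ↔
    (∀ V, Subvariety X V → hull 𝒮 V = T → dim V = c - 1 → (optimalPointsIn X 𝒮 Φ V).Finite) := by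
  constructor
  · intro h V hV hVT _
    exact (h V hV hVT).subset fun A hA => ⟨hA.1, hA.2.2⟩
  · intro h V hV hVT
    by_contra hinf
    obtain ⟨U, hU, hUT, hUd, hUinf⟩ := diagΦ hX h𝒮 hT hV hVT (by omega) hΦ hinf
    exact hUinf (h U hU hUT (by rw [hUd]; ring))

/-- atypical subvarieties are contained in optimal ones, the class being closed upwards -/
theorem atypical_class (hX : QuasiProjective X) (h𝒮 : SpecialStructure X 𝒮)
    {T : Set (ι → K)} (hT : T ∈ 𝒮) (hup : ∀ S ∈ Φ, ∀ S' ∈ 𝒮, S ⊆ S' → S' ⊂ T → S' ∈ Φ)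
    (hp : ∀ c : ℤ, 2 ≤ c → ∀ V, Subvariety X V → hull 𝒮 V = T → dim V = c - 1 →
      (optimalPointsIn X 𝒮 {S | S ∈ Φ ∧ dim S = dim T - c} V).Finite) (V : Set (ι → K))
    (hV : Subvariety X V) (hVT : hull 𝒮 V = T) :
    ∃ 𝓕 : Set (Set (ι → K)), 𝓕.Finite ∧ (∀ B ∈ 𝓕, Atypical X 𝒮 T V B ∧ hull 𝒮 B ∈ Φ) ∧
      ∀ A, Atypical X 𝒮 T V A → hull 𝒮 A ∈ Φ → ∃ B ∈ 𝓕, A ⊆ B := by
  classical
  haveI : Infinite K := IsAlgClosed.instInfinite
  have hVT' : V ⊆ T := hVT ▸ subset_hull V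
  have hall : ∀ c : ℤ, 1 ≤ c → (optimalIn X 𝒮 {S | S ∈ Φ ∧ dim S = dim T - c} V).Finite := by
    intro c hc
    refine (class_iff hX h𝒮 hT c hc fun S hS => hS.2).2 ?_ V hV hVT
    rcases eq_or_lt_of_le hc with rfl | h3
    · intro U hU _ hUd
      refine (Set.finite_singleton U).subset fun A hA => ?_
      by_contra hne
      have h2 := vd_strict hX.cone hA.1.1 hU (Set.ssubset_iff_subset_ne.2 ⟨hA.1.2.1, hne⟩)
      have h3 := vd_pos hX hA.1.1
      rw [dim_eq] at hUd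
      omega
    · exact hp c (by omega)
  refine ⟨(⋃ c ∈ Set.Icc (1 : ℤ) (dim T), optimalIn X 𝒮 {S | S ∈ Φ ∧ dim S = dim T - c} V) ∩
    {B | defect 𝒮 B < dim T - dim V}, ?_, ?_, ?_⟩
  · exact ((Set.finite_Icc _ _).biUnion fun c hc => hall c hc.1).inter_of_left _
  · rintro B ⟨hB, hBd⟩
    obtain ⟨c, -, hB2⟩ := Set.mem_iUnion₂.1 hB
    exact ⟨optimal_atypical hX.cone h𝒮 hT hVT' hB2.1 hBd, hB2.2.1⟩
  · rintro A ⟨Z, hZ, hZT, hA⟩ hAΦ
    obtain ⟨B, hB, hAB, hBd⟩ := exists_optimal (𝒮 := 𝒮) hX.cone hA.1.1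
      (hA.1.2.1.trans Set.inter_subset_left)
    have h1 := hBd.trans_lt (defect_le_of_component hX.cone h𝒮 hZ hA)
    have hBT : B ⊆ T := hB.2.1.trans hVT'
    have hhB := hull_mem hX.cone h𝒮 hB.1 hT hBT
    have h3 := vd_mono hX.cone hB.1 hV hB.2.1
    have h4 := vd_pos hX (h𝒮.subvariety _ hhB)
    have h5 : dim (hull 𝒮 B) < dim T := by
      rw [defect, dim_eq B, dim_eq V] at h1
      omega
    have h6 : hull 𝒮 B ⊂ T := Set.ssubset_iff_subset_ne.2 ⟨hull_subset hT hBT, fun he => by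
      rw [he] at h5
      exact lt_irrefl _ h5⟩
    refine ⟨B, ⟨Set.mem_biUnion (x := dim T - dim (hull 𝒮 B)) ⟨?_, ?_⟩ ⟨hB, ?_, by ring⟩, h1⟩,
      hAB⟩
    · omega
    · rw [dim_eq (hull 𝒮 B)]
      omega
    · exact hup _ hAΦ _ hhB (hull_mono hAB) h6

end Pool.Agent.R370.JU
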